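import Pool.Agent.Helper255.PPart.Final

/-!
For a prime `p ≠ 3` the function `f_p` takes the value infinity at `p ^ a` for every
`a ≥ a0 p`, where `a0 2 = 10` and `a0 p = p - 2` for `p ≥ 5`.
-/

namespace Pool.Agent.Results.MP_4b46f5_al.LargeNotThree

open Module

universe u

/-- `d` is the degree of an irreducible representation over `k` of a finite group `G` with
`|G|_p = p ^ a`. -/
def IsIrrDegree (k : Type u) [Field k] (p a d : ℕ) : Prop :=
  ∃ (G : Type) (_ : Group G) (_ : Finite G) (M : Type u) (_ : AddCommGroup M) (_ : Module k M)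
    (ρ : Representation k G M), FiniteDimensional k M ∧ ρ.IsIrreducible ∧
      padicValNat p (Nat.card G) = a ∧ finrank k M = d

/-- The supremum in `ℕ∞` of the `p`-parts of the degrees of the irreducible representations over
`k` of the finite groups `G` with `|G|_p = p ^ a`. -/
noncomputable def fBound (k : Type u) [Field k] (p a : ℕ) : ℕ∞ :=
  sSup {x : ℕ∞ | ∃ d : ℕ, IsIrrDegree k p a d ∧ x = ((p ^ padicValNat p d : ℕ) : ℕ∞)}

theorem fBound_eq_top (k : Type u) [Field k] (p a : ℕ) (hp : p.Prime)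
    (h : ∀ N : ℕ, ∃ d : ℕ, IsIrrDegree k p a d ∧ 0 < d ∧ p ^ N ∣ d) : fBound k p a = ⊤ := by
  have hpf : Fact p.Prime := ⟨hp⟩
  rw [ENat.eq_top_iff_forall_ge]
  intro N
  obtain ⟨d, hd, hd0, hdN⟩ := h N
  have h1 : N ≤ padicValNat p d := (padicValNat_dvd_iff_le hd0.ne').1 hdN
  have h2 : N ≤ p ^ padicValNat p d :=
    h1.trans (Nat.lt_pow_self hp.one_lt).le
  calc ((N : ℕ) : ℕ∞) ≤ ((p ^ padicValNat p d : ℕ) : ℕ∞) := by exact_mod_cast h2
    _ ≤ fBound k p a := le_sSup ⟨d, hd, rfl⟩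

theorem result (k : Type u) [Field k] [IsAlgClosed k] (p : ℕ) (hp : p.Prime) [CharP k p]
    (hp3 : p ≠ 3) (a : ℕ) (ha : (if p = 2 then 10 else p - 2) ≤ a) : fBound k p a = ⊤ := by
  have hpf : Fact p.Prime := ⟨hp⟩
  refine fBound_eq_top k p a hp fun N => ?_
  by_cases h2 : p = 2
  · subst h2
    rw [if_pos rfl] at ha
    obtain ⟨b, rfl⟩ := Nat.exists_eq_add_of_le ha
    obtain ⟨G, i1, i2, M, i3, i4, ρ, h1, h2, h3, h4⟩ :=
      Helper255.PPart.inflate k 2 10 b (fun d => 0 < d ∧ 2 ^ N ∣ d)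
        (Helper255.PPart.lines_two k N)
    exact ⟨_, ⟨G, i1, i2, M, i3, i4, ρ, h1, h2, h3, rfl⟩, h4⟩
  · rw [if_neg h2] at ha
    have hp5 : 5 ≤ p := by
      have h0 := hp.two_le
      have h4 : p ≠ 4 := by
        rintro rfl
        exact absurd hp (by norm_num)
      omega
    obtain ⟨b, rfl⟩ := Nat.exists_eq_add_of_le ha
    obtain ⟨G, i1, i2, M, i3, i4, ρ, h1, h2, h3, h4⟩ :=
      Helper255.PPart.inflate k p (p - 2) b (fun d => 0 < d ∧ p ^ N ∣ d)
        (Helper255.PPart.lines_big p hp5 k N)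
    exact ⟨_, ⟨G, i1, i2, M, i3, i4, ρ, h1, h2, h3, rfl⟩, h4⟩

end Pool.Agent.Results.MP_4b46f5_al.LargeNotThree
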